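import Pool.Agent.H59.PG.Stmts

/-!
# The vertices of a disjoint union
-/

set_option autoImplicit false

namespace Pool.PG

namespace GLU

theorem flat {α : Type} (d : α) (f : ℕ → List α) (s : ℕ) (m : ℕ) (h : ∀ k < m, (f k).length = s) :
    ((List.range m).flatMap f).length = m * s ∧
    ∀ k < m, ∀ u < s, ((List.range m).flatMap f).getD (k * s + u) d = (f k).getD u d := by
  induction m with
  | zero => simp
  | succ m ih =>
    obtain ⟨h1, h2⟩ := ih fun k hk => h k (by omega)
    have h3 : (List.range (m + 1)).flatMap f = (List.range m).flatMap f ++ f m := by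
      rw [List.range_succ, List.flatMap_append]
      simp
    rw [h3]
    refine ⟨?_, ?_⟩
    · rw [List.length_append, h1, h m (by omega), Nat.succ_mul]
    · intro k hk u hu
      by_cases hkm : k < m
      · rw [List.getD_append _ _ _ _ ?_, h2 k hkm u hu]
        rw [h1]
        calc k * s + u < k * s + s := by omega
          _ = (k + 1) * s := by ring
          _ ≤ m * s := Nat.mul_le_mul_right s hkm
      · have hk' : k = m := by omega
        subst hk'
        rw [List.getD_append_right _ _ _ _ (by rw [h1]; omega), h1]
        congr 1
        omega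

end GLU

theorem glu_row : GLUStmt := by
  intro o s ps hps
  have hlen : ∀ k < ps.length, ((ps.getD k []).map (shE (o + k * s))).length = s := by
    intro k hk
    rw [List.length_map, List.getD_eq_getElem _ _ hk]
    exact hps _ (List.getElem_mem hk)
  obtain ⟨h1, h2⟩ := GLU.flat ((false, 0), []) (fun k => (ps.getD k []).map (shE (o + k * s))) s
    ps.length hlen
  refine ⟨h1, fun k hk u hu => ?_⟩
  have h3 := h2 k hk u hu
  unfold vx glue
  rw [h3]
  have h4 : u < (ps.getD k []).length := by
    rw [List.getD_eq_getElem _ _ hk, hps _ (List.getElem_mem hk)]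
    exact hu
  rw [List.getD_eq_getElem _ _ h4, List.getD_eq_getElem _ _ (by rw [List.length_map]; exact h4),
    List.getElem_map]

end Pool.PG
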