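import Pool.Agent.H59.PG.Stmts

/-!
# Games with resets: all vertices have the same winner
-/

set_option autoImplicit false

namespace Pool.PG

open Filter

namespace RST

/-- Vertices from which the player `i` wins without resets. -/
def Gd (g : Game) (i : Bool) (v : ℕ) : Prop :=
  (∃ u < g.length, win g u = i ∧ (v = 2 * u ∨ v = 2 * u + 1)) ∨ v = 2 * g.length + (!i).toNat

/-- The positional strategy. -/
noncomputable def st (g : Game) (i : Bool) (r : ℕ) (σ : ℕ → ℕ) (x : ℕ) : ℕ :=
  if x < 2 * g.length then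
    (if win g (x / 2) = i then (if x % 2 = 0 then x + 1 else 2 * σ (x / 2))
      else 2 * g.length + i.toNat)
  else 2 * r

theorem st_even {g : Game} {i : Bool} {r : ℕ} {σ : ℕ → ℕ} {u : ℕ} (hu : u < g.length)
    (h : win g u = i) : st g i r σ (2 * u) = 2 * u + 1 := by
  unfold st
  rw [if_pos (by omega), show 2 * u / 2 = u by omega, if_pos h, if_pos (by omega)]

theorem st_odd {g : Game} {i : Bool} {r : ℕ} {σ : ℕ → ℕ} {u : ℕ} (hu : u < g.length)
    (h : win g u = i) : st g i r σ (2 * u + 1) = 2 * σ u := by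
  unfold st
  rw [if_pos (by omega), show (2 * u + 1) / 2 = u by omega, if_pos h, if_neg (by omega)]

theorem st_even' {g : Game} {i : Bool} {r : ℕ} {σ : ℕ → ℕ} {u : ℕ} (hu : u < g.length)
    (h : win g u ≠ i) : st g i r σ (2 * u) = 2 * g.length + i.toNat := by
  unfold st
  rw [if_pos (by omega), show 2 * u / 2 = u by omega, if_neg h]

theorem st_odd' {g : Game} {i : Bool} {r : ℕ} {σ : ℕ → ℕ} {u : ℕ} (hu : u < g.length)
    (h : win g u ≠ i) : st g i r σ (2 * u + 1) = 2 * g.length + i.toNat := by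
  unfold st
  rw [if_pos (by omega), show (2 * u + 1) / 2 = u by omega, if_neg h]

theorem st_big {g : Game} {i : Bool} {r : ℕ} {σ : ℕ → ℕ} {x : ℕ} (hx : 2 * g.length ≤ x) :
    st g i r σ x = 2 * r := by
  unfold st
  rw [if_neg (by omega)]

/-- The facts on the game with resets which are used. -/
structure Dat (g G : Game) (r : ℕ) : Prop where
  len : G.length = 2 * g.length + 3
  ev : ∀ u < g.length, own G (2 * u) = (!own g u) ∧ pri G (2 * u) = pri g u + 2 ∧
    suc G (2 * u) = [2 * g.length + (!own g u).toNat, 2 * u + 1]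
  od : ∀ u < g.length, own G (2 * u + 1) = own g u ∧ pri G (2 * u + 1) = pri g u + 2 ∧
    suc G (2 * u + 1) = (2 * g.length + (own g u).toNat) :: (suc g u).map fun w => 2 * w
  r0 : pri G (2 * g.length) = 0
  r1 : pri G (2 * g.length + 1) = 1
  rs : ∀ x, 2 * g.length ≤ x → x < 2 * g.length + 3 → suc G x = [2 * r]
  val : Valid G

theorem cases_lt {n x : ℕ} (hx : x < 2 * n + 3) :
    (∃ u < n, x = 2 * u) ∨ (∃ u < n, x = 2 * u + 1) ∨ (2 * n ≤ x ∧ x < 2 * n + 3) := by
  by_cases h : x < 2 * n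
  · rcases Nat.even_or_odd' x with ⟨u, hu | hu⟩
    · left; exact ⟨u, by omega, hu⟩
    · right; left; exact ⟨u, by omega, hu⟩
  · right; right; omega

variable {g G : Game} {r : ℕ} {σ : ℕ → ℕ} {i : Bool}

theorem Gd.step (D : Dat g G r) (hg : Valid g) (hr : r < g.length) (hσ : Sol g (win g) σ)
    (hi : win g r = i) {v w : ℕ} (hv : Gd g i v) (hw : w ∈ suc G v)
    (hs : own G v = i → w = st g i r σ v) : Gd g i w := by
  rcases hv with ⟨u, hu, hwu, hv | hv⟩ | hv
  · subst hv
    obtain ⟨h1, -, h3⟩ := D.ev u hu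
    by_cases ho : own G (2 * u) = i
    · rw [hs ho, st_even hu hwu]
      exact Or.inl ⟨u, hu, hwu, Or.inr rfl⟩
    · rw [h3] at hw
      rcases List.mem_cons.1 hw with h | h
      · right
        rw [h]
        rw [h1] at ho
        have : (!own g u) = !i := by
          cases hh : own g u <;> cases i <;> simp_all
        rw [this]
      · rw [List.mem_singleton] at h
        exact Or.inl ⟨u, hu, hwu, Or.inr h⟩
  · subst hv
    obtain ⟨h1, -, h3⟩ := D.od u hu
    by_cases ho : own G (2 * u + 1) = i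
    · rw [hs ho, st_odd hu hwu]
      have h4 : own g u = win g u := by rw [← h1, ho, hwu]
      have h5 := hσ.stay u hu h4
      have h6 := (hg u hu).2 _ (hσ.mem u hu)
      exact Or.inl ⟨σ u, h6, h5.trans hwu, Or.inl rfl⟩
    · rw [h1] at ho
      rw [h3] at hw
      rcases List.mem_cons.1 hw with h | h
      · right
        rw [h]
        have : own g u = !i := by
          cases hh : own g u <;> cases i <;> simp_all
        rw [this]
      · obtain ⟨w', hw', rfl⟩ := List.mem_map.1 h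
        have h5 := hσ.trap u hu (by rw [hwu]; exact ho) w' hw'
        exact Or.inl ⟨w', (hg u hu).2 _ hw', h5.trans hwu, Or.inl rfl⟩
  · have h1 : suc G v = [2 * r] := by
      apply D.rs
      · omega
      · rw [hv]; have := Bool.toNat_lt (!i); omega
    rw [h1, List.mem_singleton] at hw
    exact Or.inl ⟨r, hr, hi, Or.inl hw⟩

theorem big_step (D : Dat g G r) (hr : r < g.length) (hi : win g r = i) {v w : ℕ}
    (hv : 2 * g.length ≤ v) (hv' : v < 2 * g.length + 3) (hw : w ∈ suc G v) : Gd g i w := by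
  rw [D.rs v hv hv', List.mem_singleton] at hw
  exact Or.inl ⟨r, hr, hi, Or.inl hw⟩

/-- Every play which follows the strategy is in a good vertex at some time. -/
theorem exists_good (D : Dat g G r) (hr : r < g.length) (hi : win g r = i)
    {x : ℕ → ℕ} (hx : ∀ k, x (k + 1) ∈ suc G (x k)) (hlt : ∀ k, x k < 2 * g.length + 3)
    (hs : ∀ k, own G (x k) = i → x (k + 1) = st g i r σ (x k)) : ∃ k, Gd g i (x k) := by
  by_contra hcon
  push Not at hcon
  have hsmall : ∀ k, x k < 2 * g.length := by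
    intro k
    by_contra h
    exact hcon (k + 1) (big_step D hr hi (by omega) (hlt k) (hx k))
  -- a vertex of the player `i` is impossible
  have hown : ∀ k, own G (x k) ≠ i := by
    intro k ho
    have h1 := hs k ho
    rcases cases_lt (hlt k) with ⟨u, hu, h⟩ | ⟨u, hu, h⟩ | h
    · by_cases hw : win g u = i
      · exact hcon k (Or.inl ⟨u, hu, hw, Or.inl h⟩)
      · rw [h, st_even' hu hw] at h1
        have := hsmall (k + 1)
        omega
    · by_cases hw : win g u = i
      · exact hcon k (Or.inl ⟨u, hu, hw, Or.inr h⟩)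
      · rw [h, st_odd' hu hw] at h1
        have := hsmall (k + 1)
        omega
    · have := hsmall k
      omega
  -- so the play never is in an even vertex twice
  have heven : ∀ k u, u < g.length → x k ≠ 2 * u := by
    intro k u hu h
    obtain ⟨h1, -, h3⟩ := D.ev u hu
    have h4 := hx k
    rw [h, h3] at h4
    rcases List.mem_cons.1 h4 with h5 | h5
    · have := hsmall (k + 1)
      omega
    · rw [List.mem_singleton] at h5
      have h6 := hown k
      have h7 := hown (k + 1)
      rw [h, h1] at h6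
      rw [h5, (D.od u hu).1] at h7
      cases hh : own g u <;> cases i <;> simp_all
  rcases cases_lt (hlt 0) with ⟨u, hu, h⟩ | ⟨u, hu, h⟩ | h
  · exact heven 0 u hu h
  · have h4 := hx 0
    rw [h, (D.od u hu).2.2] at h4
    rcases List.mem_cons.1 h4 with h5 | h5
    · have := hsmall (0 + 1)
      omega
    · obtain ⟨w', hw', h6⟩ := List.mem_map.1 h5
      have := hsmall (0 + 1)
      exact heven (0 + 1) w' (by omega) h6.symm
  · have := hsmall 0
    omega

theorem good_forever (D : Dat g G r) (hg : Valid g) (hr : r < g.length) (hσ : Sol g (win g) σ)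
    (hi : win g r = i) {x : ℕ → ℕ} (hx : ∀ k, x (k + 1) ∈ suc G (x k))
    (hs : ∀ k, own G (x k) = i → x (k + 1) = st g i r σ (x k)) {k : ℕ} (hk : Gd g i (x k)) :
    ∀ m, k ≤ m → Gd g i (x m) := by
  intro m hm
  induction m, hm using Nat.le_induction with
  | base => exact hk
  | succ m _ ih => exact Gd.step D hg hr hσ hi ih (hx m) (hs m)

/-- The case of finitely many resets. -/
theorem won_tail (D : Dat g G r) (hσ : Sol g (win g) σ)
    {x : ℕ → ℕ} (hx : ∀ k, x (k + 1) ∈ suc G (x k))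
    (hs : ∀ k, own G (x k) = i → x (k + 1) = st g i r σ (x k)) {k0 : ℕ}
    (hk : ∀ k, k0 ≤ k → ∃ u < g.length, win g u = i ∧ (x k = 2 * u ∨ x k = 2 * u + 1)) :
    WonBy G i x := by
  -- even vertices are followed by odd ones
  have he : ∀ k, k0 ≤ k → ∀ u < g.length, x k = 2 * u → x (k + 1) = 2 * u + 1 := by
    intro k hk0 u hu h
    have h4 := hx k
    rw [h, (D.ev u hu).2.2] at h4
    rcases List.mem_cons.1 h4 with h5 | h5
    · obtain ⟨w, hw, -, h6⟩ := hk (k + 1) (by omega)
      rcases h6 with h6 | h6 <;> omega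
    · exact List.mem_singleton.1 h5
  have ho : ∀ k, k0 ≤ k → ∀ u < g.length, x k = 2 * u + 1 → ∃ w ∈ suc g u, x (k + 1) = 2 * w := by
    intro k hk0 u hu h
    have h4 := hx k
    rw [h, (D.od u hu).2.2] at h4
    rcases List.mem_cons.1 h4 with h5 | h5
    · obtain ⟨w, hw, -, h6⟩ := hk (k + 1) (by omega)
      rcases h6 with h6 | h6 <;> omega
    · obtain ⟨w', hw', h6⟩ := List.mem_map.1 h5
      exact ⟨w', hw', h6.symm⟩
  obtain ⟨k1, hk1, u1, hu1, hx1⟩ : ∃ k1, k0 ≤ k1 ∧ ∃ u < g.length, x k1 = 2 * u := by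
    obtain ⟨u, hu, hw, h | h⟩ := hk k0 le_rfl
    · exact ⟨k0, le_rfl, u, hu, h⟩
    · obtain ⟨w, hw, h2⟩ := ho k0 le_rfl u hu h
      obtain ⟨w', hw', -, h3⟩ := hk (k0 + 1) (by omega)
      refine ⟨k0 + 1, by omega, w, ?_, h2⟩
      rcases h3 with h3 | h3 <;> omega
  obtain ⟨y, hy⟩ : ∃ y : ℕ → ℕ, ∀ j, y j = x (k1 + 2 * j) / 2 := ⟨_, fun _ => rfl⟩
  have hev : ∀ j, ∃ u < g.length, x (k1 + 2 * j) = 2 * u := by
    intro j
    induction j with
    | zero => exact ⟨u1, hu1, hx1⟩
    | succ j ih =>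
      obtain ⟨u, hu, h⟩ := ih
      have h1 := he (k1 + 2 * j) (by omega) u hu h
      obtain ⟨w, hw, h2⟩ := ho (k1 + 2 * j + 1) (by omega) u hu h1
      obtain ⟨w', hw', -, h3⟩ := hk (k1 + 2 * j + 1 + 1) (by omega)
      refine ⟨w, ?_, by rw [show k1 + 2 * (j + 1) = k1 + 2 * j + 1 + 1 by ring]; exact h2⟩
      rcases h3 with h3 | h3 <;> omega
  have hyx : ∀ j, y j < g.length ∧ x (k1 + 2 * j) = 2 * y j ∧
      x (k1 + 2 * j + 1) = 2 * y j + 1 := by
    intro j
    obtain ⟨u, hu, h⟩ := hev j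
    have h1 : y j = u := by rw [hy, h]; omega
    rw [h1]
    exact ⟨hu, h, he _ (by omega) u hu h⟩
  have hsuc : ∀ j, y (j + 1) ∈ suc g (y j) := by
    intro j
    obtain ⟨h1, -, h3⟩ := hyx j
    obtain ⟨w, hw, h4⟩ := ho (k1 + 2 * j + 1) (by omega) _ h1 h3
    obtain ⟨-, h5, -⟩ := hyx (j + 1)
    rw [show k1 + 2 * (j + 1) = k1 + 2 * j + 1 + 1 by ring] at h5
    have : y (j + 1) = w := by omega
    rw [this]
    exact hw
  have hwin : ∀ j, win g (y j) = i := by
    intro j
    obtain ⟨h1, h2, -⟩ := hyx j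
    obtain ⟨u, hu, hw, h3⟩ := hk (k1 + 2 * j) (by omega)
    have : u = y j := by rcases h3 with h3 | h3 <;> omega
    rw [← this]
    exact hw
  have hfol : ∀ j, own g (y j) = win g (y 0) → y (j + 1) = σ (y j) := by
    intro j hj
    obtain ⟨h1, h2, h3⟩ := hyx j
    obtain ⟨-, h5, -⟩ := hyx (j + 1)
    rw [show k1 + 2 * (j + 1) = k1 + 2 * j + 1 + 1 by ring] at h5
    have h6 := hs (k1 + 2 * j + 1) (by rw [h3, (D.od _ h1).1, hj, hwin 0])
    rw [h3, st_odd h1 (hwin j)] at h6
    omega
  obtain ⟨p, hp1, hp2, hp3⟩ := hσ.won (y 0) (hyx 0).1 y ⟨rfl, hsuc⟩ hfol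
  rw [hwin 0] at hp3
  have hpe : ∀ j, pri G (x (k1 + 2 * j)) = pri g (y j) + 2 := by
    intro j
    obtain ⟨h1, h2, -⟩ := hyx j
    rw [h2, (D.ev _ h1).2.1]
  have hpo : ∀ j, pri G (x (k1 + 2 * j + 1)) = pri g (y j) + 2 := by
    intro j
    obtain ⟨h1, -, h3⟩ := hyx j
    rw [h3, (D.od _ h1).2.1]
  refine ⟨p + 2, ?_, ?_, ?_⟩
  · rw [Filter.frequently_atTop] at hp1 ⊢
    intro a
    obtain ⟨j, hj, h⟩ := hp1 a
    exact ⟨k1 + 2 * j, by omega, by rw [hpe, h]⟩
  · rw [Filter.eventually_atTop] at hp2 ⊢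
    obtain ⟨a, ha⟩ := hp2
    refine ⟨k1 + 2 * a, fun m hm => ?_⟩
    rcases Nat.even_or_odd' (m - k1) with ⟨j, hj | hj⟩
    · have h1 : m = k1 + 2 * j := by omega
      rw [h1, hpe]
      have := ha j (by omega)
      omega
    · have h1 : m = k1 + 2 * j + 1 := by omega
      rw [h1, hpo]
      have := ha j (by omega)
      omega
  · rw [← hp3]
    constructor
    · rintro ⟨m, hm⟩
      exact ⟨m - 1, by omega⟩
    · rintro ⟨m, hm⟩
      exact ⟨m + 1, by omega⟩

theorem won (D : Dat g G r) (hg : Valid g) (hr : r < g.length) (hσ : Sol g (win g) σ)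
    (hi : win g r = i) {x : ℕ → ℕ} (hx : ∀ k, x (k + 1) ∈ suc G (x k))
    (hlt : ∀ k, x k < 2 * g.length + 3)
    (hs : ∀ k, own G (x k) = i → x (k + 1) = st g i r σ (x k)) : WonBy G i x := by
  obtain ⟨k0, hk0⟩ := exists_good D hr hi hx hlt hs
  have hgd := good_forever D hg hr hσ hi hx hs hk0
  by_cases hf : ∃ᶠ k in atTop, x k = 2 * g.length + (!i).toNat
  · refine ⟨(!i).toNat, ?_, ?_, ?_⟩
    · refine hf.mono fun k hk => ?_
      rw [hk]
      cases i
      · exact D.r1
      · exact D.r0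
    · rw [Filter.eventually_atTop]
      refine ⟨k0, fun k hk => ?_⟩
      rcases hgd k hk with ⟨u, hu, -, h | h⟩ | h
      · rw [h, (D.ev u hu).2.1]
        have := Bool.toNat_lt (!i)
        omega
      · rw [h, (D.od u hu).2.1]
        have := Bool.toNat_lt (!i)
        omega
      · rw [h]
        cases i
        · exact D.r1.ge
        · exact D.r0.ge
    · cases i <;> simp
  · rw [Filter.not_frequently, Filter.eventually_atTop] at hf
    obtain ⟨a, ha⟩ := hf
    refine won_tail D hσ hx hs (k0 := max a k0) fun k hk => ?_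
    rcases hgd k (le_trans (le_max_right _ _) hk) with h | h
    · exact h
    · exact absurd h (ha k (le_trans (le_max_left _ _) hk))

end RST

theorem rst_row (h1 : SOLStmt) (h2 : RSLStmt) (_h3 : WINStmt) : RSTStmt := by
  intro g r hg hr u0 hu0
  obtain ⟨hlen, hvx, hR0, hR1, hR2, hval⟩ := h2 g r
  have hG := hval hg hr
  obtain ⟨⟨σ, hσ⟩, hW⟩ := h1 g hg
  obtain ⟨-, hWG⟩ := h1 _ hG
  refine (hWG u0 hu0 (win g r)).1 ?_
  generalize rst r g = G at *
  have D : RST.Dat g G r := by
    refine ⟨hlen, fun u hu => ?_, fun u hu => ?_, ?_, ?_, ?_, hG⟩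
    · unfold own pri suc
      rw [(hvx u hu).1]
      exact ⟨rfl, rfl, rfl⟩
    · unfold own pri suc
      rw [(hvx u hu).2]
      exact ⟨rfl, rfl, rfl⟩
    · unfold pri; rw [hR0]
    · unfold pri; rw [hR1]
    · intro x hx hx'
      have h : x = 2 * g.length ∨ x = 2 * g.length + 1 ∨ x = 2 * g.length + 2 := by omega
      unfold suc
      rcases h with h | h | h
      · rw [h, hR0]
      · rw [h, hR1]
      · rw [h, hR2]
  refine ⟨fun l => RST.st g (win g r) r σ (l.getLastD 0), ?_, ?_⟩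
  · intro h v hv ho
    simp only [List.getLastD_concat]
    rw [hlen] at hv
    rcases RST.cases_lt hv with ⟨u, hu, rfl⟩ | ⟨u, hu, rfl⟩ | ⟨hv1, hv2⟩
    · obtain ⟨e1, -, e3⟩ := D.ev u hu
      rw [e3]
      by_cases hw : win g u = win g r
      · rw [RST.st_even hu hw]
        simp
      · rw [RST.st_even' hu hw, ← ho, e1]
        simp
    · obtain ⟨e1, -, e3⟩ := D.od u hu
      rw [e3]
      by_cases hw : win g u = win g r
      · rw [RST.st_odd hu hw]
        exact List.mem_cons_of_mem _ (List.mem_map_of_mem (hσ.mem u hu))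
      · rw [RST.st_odd' hu hw, ← ho, e1]
        simp
    · rw [RST.st_big hv1, D.rs v hv1 hv2]
      simp
  · intro x hx hf
    have hlt : ∀ k, x k < 2 * g.length + 3 := by
      intro k
      rw [← hlen]
      induction k with
      | zero => rw [hx.1]; exact hu0
      | succ k ih => exact (hG _ ih).2 _ (hx.2 k)
    refine RST.won D hg hr hσ rfl hx.2 hlt fun k hk => ?_
    have h4 := hf k hk
    simp only [List.range_succ, List.map_append, List.map_cons, List.map_nil,
      List.getLastD_concat] at h4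
    exact h4

end Pool.PG
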